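import Pool.Agent.R805.Tie.Defs

/-!
# Basic facts on slice words and isotopies (problem MP_c2102d)
-/

namespace Pool.Agent.R805.Tie

open Kd

theorem run_append (k : ℕ) (u v : Wd) :
    run k (u ++ v) = (run k u).bind (fun m => run m v) := by
  induction u generalizing k with
  | nil => simp [run]
  | cons s u ih =>
    simp only [List.cons_append, run]
    split
    · rw [ih]
    · simp

theorem run_append_of {k m : ℕ} {u : Wd} (h : run k u = some m) (v : Wd) :
    run k (u ++ v) = run m v := by
  rw [run_append, h]; rfl

/-- The two sides of a move have the same numbers of strands. -/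
theorem Mv.run_eq {k : ℕ} (x : Mv) (h : x.ok k = true) : run k x.lhs = run k x.rhs := by
  cases x with
  | far s t i d =>
    simp only [Mv.lhs, Mv.rhs, run]
    rcases s with _ | _ | _ | _ <;> rcases t with _ | _ | _ | _ <;>
      simp only [Kd.ins, Kd.outs] <;> split_ifs <;> first | rfl | omega | (congr 1; omega)
  | snakeL i =>
    simp only [Mv.ok, decide_eq_true_eq] at h
    simp only [Mv.lhs, Mv.rhs, run, Kd.ins, Kd.outs]
    split_ifs <;> first | rfl | omega | (congr 1)
  | snakeR i =>
    simp only [Mv.ok, decide_eq_true_eq] at h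
    simp only [Mv.lhs, Mv.rhs, run, Kd.ins, Kd.outs]
    split_ifs <;> first | rfl | omega | (congr 1)
  | cupP i =>
    simp only [Mv.lhs, Mv.rhs, run, Kd.ins, Kd.outs]
    split_ifs <;> first | rfl | omega
  | cupN i =>
    simp only [Mv.lhs, Mv.rhs, run, Kd.ins, Kd.outs]
    split_ifs <;> first | rfl | omega
  | capP i =>
    simp only [Mv.lhs, Mv.rhs, run, Kd.ins, Kd.outs]
    split_ifs <;> first | rfl | omega
  | capN i =>
    simp only [Mv.lhs, Mv.rhs, run, Kd.ins, Kd.outs]
    split_ifs <;> first | rfl | omega
  | r1cupP i =>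
    simp only [Mv.lhs, Mv.rhs, run, Kd.ins, Kd.outs]
    split_ifs <;> first | rfl | omega
  | r1cupN i =>
    simp only [Mv.lhs, Mv.rhs, run, Kd.ins, Kd.outs]
    split_ifs <;> first | rfl | omega
  | r1capP i =>
    simp only [Mv.lhs, Mv.rhs, run, Kd.ins, Kd.outs]
    split_ifs <;> first | rfl | omega | (congr 1; omega)
  | r1capN i =>
    simp only [Mv.lhs, Mv.rhs, run, Kd.ins, Kd.outs]
    split_ifs <;> first | rfl | omega | (congr 1; omega)
  | r2PN i =>
    simp only [Mv.ok, decide_eq_true_eq] at h
    simp only [Mv.lhs, Mv.rhs, run, Kd.ins, Kd.outs]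
    split_ifs <;> first | rfl | omega | (congr 1; omega)
  | r2NP i =>
    simp only [Mv.ok, decide_eq_true_eq] at h
    simp only [Mv.lhs, Mv.rhs, run, Kd.ins, Kd.outs]
    split_ifs <;> first | rfl | omega | (congr 1; omega)
  | r3 i =>
    simp only [Mv.lhs, Mv.rhs, run, Kd.ins, Kd.outs]
    split_ifs <;> first | rfl | omega | (congr 1; omega)

/-- Isotopic words are read from the same numbers of strands to the same numbers of strands; in
particular all words in a chain of moves starting with a diagram are diagrams. -/
theorem Iso.run_eq {k : ℕ} {a b : Wd} (h : Iso k a b) : run k a = run k b := by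
  induction h with
  | refl k w => rfl
  | symm _ ih => exact ih.symm
  | trans _ _ ih1 ih2 => exact ih1.trans ih2
  | mv x h => exact x.run_eq h
  | ctx u v h _ ih =>
    rw [run_append_of h, run_append_of h, run_append, run_append, ih]

theorem Iso.left {k m : ℕ} (u : Wd) {a b : Wd} (h : run k u = some m) (e : Iso m a b) :
    Iso k (u ++ a) (u ++ b) := by
  have := Iso.ctx u [] h e
  simpa using this

theorem Iso.right {k : ℕ} {a b : Wd} (v : Wd) (e : Iso k a b) : Iso k (a ++ v) (b ++ v) :=
  Iso.ctx (k := k) (m := k) [] v rfl e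

/-! ### Scripts of moves -/

/-- One move: position, direction, move. -/
def applyMv (k : ℕ) (w : Wd) (p : ℕ) (d : Bool) (x : Mv) : Option Wd :=
  match run k (w.take p) with
  | none => none
  | some m =>
    if x.ok m = true ∧
        (w.drop p).take (if d then x.lhs else x.rhs).length = (if d then x.lhs else x.rhs) then
      some (w.take p ++ ((if d then x.rhs else x.lhs) ++
        (w.drop p).drop (if d then x.lhs else x.rhs).length))
    else none

theorem take_glue (w x : Wd) (p : ℕ) (h : (w.drop p).take x.length = x) :
    w.take p ++ (x ++ (w.drop p).drop x.length) = w := by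
  conv_lhs =>
    enter [2, 1]
    rw [← h]
  rw [List.take_append_drop, List.take_append_drop]

theorem applyMv_iso {k : ℕ} {w w' : Wd} {p : ℕ} {d : Bool} {x : Mv}
    (h : applyMv k w p d x = some w') : Iso k w w' := by
  unfold applyMv at h
  split at h
  · simp at h
  · rename_i m hm
    cases d with
    | true =>
      simp only [if_true] at h
      split_ifs at h with h1
      simp only [Option.some.injEq] at h
      subst h
      have e := Iso.ctx (w.take p) ((w.drop p).drop x.lhs.length) hm (Iso.mv x h1.1)
      rw [take_glue _ _ _ h1.2] at e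
      exact e
    | false =>
      simp only [Bool.false_eq_true, if_false] at h
      split_ifs at h with h1
      simp only [Option.some.injEq] at h
      subst h
      have e := Iso.ctx (w.take p) ((w.drop p).drop x.rhs.length) hm (Iso.mv x h1.1)
      rw [take_glue _ _ _ h1.2] at e
      exact e.symm

/-- A script of moves. -/
def script (k : ℕ) : Wd → List (ℕ × Bool × Mv) → Option Wd
  | w, [] => some w
  | w, x :: l => (applyMv k w x.1 x.2.1 x.2.2).bind (fun w' => script k w' l)

theorem script_iso {k : ℕ} {w w' : Wd} (l : List (ℕ × Bool × Mv)) (h : script k w l = some w') :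
    Iso k w w' := by
  induction l generalizing w with
  | nil =>
    simp only [script, Option.some.injEq] at h
    subst h
    exact Iso.refl _ _
  | cons x l ih =>
    simp only [script] at h
    cases hx : applyMv k w x.1 x.2.1 x.2.2 with
    | none => rw [hx] at h; simp at h
    | some w1 =>
      rw [hx] at h
      exact (applyMv_iso hx).trans (ih h)

/-! ### Shifts -/

theorem sh_append (n : ℕ) (u v : Wd) : sh n (u ++ v) = sh n u ++ sh n v := by
  simp [sh]

theorem sh_cons (n : ℕ) (s : Sl) (v : Wd) : sh n (s :: v) = (s.1, s.2 + n) :: sh n v := rfl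

theorem sh_nil (n : ℕ) : sh n [] = [] := rfl

theorem sh_sh (n m : ℕ) (w : Wd) : sh n (sh m w) = sh (m + n) w := by
  simp [sh, Function.comp_def, add_assoc]

theorem run_pad (l r : ℕ) {k m : ℕ} {w : Wd} (h : run k w = some m) :
    run (l + k + r) (sh l w) = some (l + m + r) := by
  induction w generalizing k with
  | nil =>
    simp only [run, Option.some.injEq] at h
    subst h
    rfl
  | cons s w ih =>
    simp only [run] at h
    split_ifs at h with h1
    rw [sh_cons]
    simp only [run]
    rw [if_pos (by omega)]
    have := ih h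
    rw [← this]
    congr 1
    omega

theorem Mv.pad_iso (l r : ℕ) {k : ℕ} (x : Mv) (h : x.ok k = true) :
    Iso (l + k + r) (sh l x.lhs) (sh l x.rhs) := by
  cases x with
  | far s t i d =>
    have := Iso.mv (k := l + k + r) (Mv.far s t (i + l) d) rfl
    simp only [Mv.lhs, Mv.rhs, sh, List.map_cons, List.map_nil] at this ⊢
    have e1 : i + s.outs + d + l = i + l + s.outs + d := by omega
    have e2 : i + s.ins + d + l = i + l + s.ins + d := by omega
    rw [e1, e2]
    exact this
  | snakeL i =>
    simp only [Mv.ok, decide_eq_true_eq] at h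
    have := Iso.mv (k := l + k + r) (Mv.snakeL (i + l))
      (by simp only [Mv.ok, decide_eq_true_eq]; omega)
    simp only [Mv.lhs, Mv.rhs, sh, List.map_cons, List.map_nil] at this ⊢
    have e1 : i + 1 + l = i + l + 1 := by omega
    rw [e1]
    exact this
  | snakeR i =>
    simp only [Mv.ok, decide_eq_true_eq] at h
    have := Iso.mv (k := l + k + r) (Mv.snakeR (i + l))
      (by simp only [Mv.ok, decide_eq_true_eq]; omega)
    simp only [Mv.lhs, Mv.rhs, sh, List.map_cons, List.map_nil] at this ⊢
    have e1 : i + 1 + l = i + l + 1 := by omega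
    rw [e1]
    exact this
  | cupP i =>
    have := Iso.mv (k := l + k + r) (Mv.cupP (i + l)) rfl
    simp only [Mv.lhs, Mv.rhs, sh, List.map_cons, List.map_nil] at this ⊢
    have e1 : i + 1 + l = i + l + 1 := by omega
    rw [e1]
    exact this
  | cupN i =>
    have := Iso.mv (k := l + k + r) (Mv.cupN (i + l)) rfl
    simp only [Mv.lhs, Mv.rhs, sh, List.map_cons, List.map_nil] at this ⊢
    have e1 : i + 1 + l = i + l + 1 := by omega
    rw [e1]
    exact this
  | capP i =>
    have := Iso.mv (k := l + k + r) (Mv.capP (i + l)) rfl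
    simp only [Mv.lhs, Mv.rhs, sh, List.map_cons, List.map_nil] at this ⊢
    have e1 : i + 1 + l = i + l + 1 := by omega
    rw [e1]
    exact this
  | capN i =>
    have := Iso.mv (k := l + k + r) (Mv.capN (i + l)) rfl
    simp only [Mv.lhs, Mv.rhs, sh, List.map_cons, List.map_nil] at this ⊢
    have e1 : i + 1 + l = i + l + 1 := by omega
    rw [e1]
    exact this
  | r1cupP i => exact Iso.mv (k := l + k + r) (Mv.r1cupP (i + l)) rfl
  | r1cupN i => exact Iso.mv (k := l + k + r) (Mv.r1cupN (i + l)) rfl
  | r1capP i => exact Iso.mv (k := l + k + r) (Mv.r1capP (i + l)) rfl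
  | r1capN i => exact Iso.mv (k := l + k + r) (Mv.r1capN (i + l)) rfl
  | r2PN i =>
    simp only [Mv.ok, decide_eq_true_eq] at h
    exact Iso.mv (k := l + k + r) (Mv.r2PN (i + l))
      (by simp only [Mv.ok, decide_eq_true_eq]; omega)
  | r2NP i =>
    simp only [Mv.ok, decide_eq_true_eq] at h
    exact Iso.mv (k := l + k + r) (Mv.r2NP (i + l))
      (by simp only [Mv.ok, decide_eq_true_eq]; omega)
  | r3 i =>
    have := Iso.mv (k := l + k + r) (Mv.r3 (i + l)) rfl
    simp only [Mv.lhs, Mv.rhs, sh, List.map_cons, List.map_nil] at this ⊢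
    have e1 : i + 1 + l = i + l + 1 := by omega
    rw [e1]
    exact this

theorem Iso.pad (l r : ℕ) {k : ℕ} {a b : Wd} (h : Iso k a b) :
    Iso (l + k + r) (sh l a) (sh l b) := by
  induction h with
  | refl k w => exact Iso.refl _ _
  | symm _ ih => exact ih.symm
  | trans _ _ ih1 ih2 => exact ih1.trans ih2
  | mv x h => exact x.pad_iso l r h
  | ctx u v h _ ih =>
    rw [sh_append, sh_append, sh_append, sh_append]
    exact Iso.ctx _ _ (run_pad l r h) ih

/-- A slice to the left of a word is interchanged with it. -/
theorem commL (t : Kd) (ht : t.ins = t.outs) {l k r m i : ℕ} (hi : i + t.ins ≤ l) {w : Wd}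
    (h : run k w = some m) :
    Iso (l + k + r) (sh l w ++ [(t, i)]) ([(t, i)] ++ sh l w) := by
  induction w generalizing k with
  | nil => exact Iso.refl _ _
  | cons s w ih =>
    simp only [run] at h
    split_ifs at h with h1
    rw [sh_cons]
    have e1 : run (l + k + r) [(s.1, s.2 + l)] = some (l + (k - s.1.ins + s.1.outs) + r) := by
      simp only [run]
      rw [if_pos (by omega)]
      congr 1
      omega
    have e2 := Iso.left [(s.1, s.2 + l)] e1 (ih h)
    have e3 : Iso (l + k + r) [(s.1, s.2 + l), (t, i)] [(t, i), (s.1, s.2 + l)] := by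
      have := Iso.mv (k := l + k + r) (Mv.far t s.1 i (s.2 + l - i - t.ins)) rfl
      simp only [Mv.lhs, Mv.rhs] at this
      have e4 : i + t.outs + (s.2 + l - i - t.ins) = s.2 + l := by omega
      have e5 : i + t.ins + (s.2 + l - i - t.ins) = s.2 + l := by omega
      rw [e4, e5] at this
      exact this.symm
    exact e2.trans (Iso.right (sh l w) e3)

/-- A slice to the right of a word is interchanged with it. -/
theorem commR (t : Kd) {l k r m d : ℕ} {w : Wd} (h : run k w = some m) :
    Iso (l + k + r) (sh l w ++ [(t, l + m + d)]) ([(t, l + k + d)] ++ sh l w) := by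
  induction w generalizing k with
  | nil =>
    simp only [run, Option.some.injEq] at h
    subst h
    exact Iso.refl _ _
  | cons s w ih =>
    simp only [run] at h
    split_ifs at h with h1
    rw [sh_cons]
    have e1 : run (l + k + r) [(s.1, s.2 + l)] = some (l + (k - s.1.ins + s.1.outs) + r) := by
      simp only [run]
      rw [if_pos (by omega)]
      congr 1
      omega
    have e2 := Iso.left [(s.1, s.2 + l)] e1 (ih h)
    have e3 : Iso (l + k + r) [(s.1, s.2 + l), (t, l + (k - s.1.ins + s.1.outs) + d)]
        [(t, l + k + d), (s.1, s.2 + l)] := by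
      have := Iso.mv (k := l + k + r) (Mv.far s.1 t (s.2 + l) (k + d - s.2 - s.1.ins)) rfl
      simp only [Mv.lhs, Mv.rhs] at this
      have e4 : s.2 + l + s.1.outs + (k + d - s.2 - s.1.ins)
          = l + (k - s.1.ins + s.1.outs) + d := by omega
      have e5 : s.2 + l + s.1.ins + (k + d - s.2 - s.1.ins) = l + k + d := by omega
      rw [e4, e5] at this
      exact this
    exact e2.trans (Iso.right (sh l w) e3)

end Pool.Agent.R805.Tie
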