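import Mathlib

/-!
# Tie knots: definitions (problem MP_c2102d)

## Link diagrams as words of slices

A (tangle) diagram in general position with respect to the height function of the plane is cut by
horizontal lines into elementary slices.  Reading from bottom to top, a slice is one of

* `cup i`: a local minimum; it creates two new strands, at positions `i` and `i+1`;
* `cap i`: a local maximum; it joins the strands at positions `i` and `i+1`;
* `pos i`: a crossing of the strands at positions `i` and `i+1`, in which the strand which goes
  (upwards) from position `i` to position `i+1` passes over the other one;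
* `neg i`: the same, but the strand which goes from position `i` to position `i+1` passes under.

Positions are counted from the left, starting with `0`; all other strands are vertical.
A diagram is a word (list) of slices, `run k w = some m` says that `w` can be read starting with
`k` strands and that it ends with `m` strands.  A link diagram is a word `w` with
`run 0 w = some 0`.

Two words (read from `k` strands) are isotopic, `Iso k w w'`, when they are connected by a finite
sequence of the local moves `Mv` (planar isotopies and the Reidemeister moves I, II, III).
Every move is applied at a place where both sides can be read; `Iso.run_eq` shows that validity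
is preserved.
-/

namespace Pool.Agent.R805.Tie

/-- The four kinds of elementary slices. -/
inductive Kd
  | cup | cap | pos | neg
  deriving DecidableEq

/-- Number of strands a slice uses at its bottom. -/
def Kd.ins : Kd → ℕ
  | .cup => 0
  | .cap => 2
  | .pos => 2
  | .neg => 2

/-- Number of strands a slice has at its top. -/
def Kd.outs : Kd → ℕ
  | .cup => 2
  | .cap => 0
  | .pos => 2
  | .neg => 2

/-- A slice: its kind and the position of its leftmost strand. -/
abbrev Sl := Kd × ℕ

/-- A diagram: the list of its slices, from bottom to top. -/
abbrev Wd := List Sl

/-- `run k w = some m`: the word `w` can be read from `k` strands and ends with `m` strands. -/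
def run : ℕ → Wd → Option ℕ
  | k, [] => some k
  | k, s :: w => if s.2 + s.1.ins ≤ k then run (k - s.1.ins + s.1.outs) w else none

/-- The local moves. -/
inductive Mv
  /-- two far apart slices are interchanged -/
  | far (s t : Kd) (i d : ℕ)
  /-- straightening a zigzag -/
  | snakeL (i : ℕ)
  /-- straightening a zigzag -/
  | snakeR (i : ℕ)
  /-- a strand passing under a minimum slides from its right to its left side -/
  | cupP (i : ℕ)
  /-- a strand passing over a minimum slides from its right to its left side -/
  | cupN (i : ℕ)
  /-- a strand passing over a maximum slides from its right to its left side -/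
  | capP (i : ℕ)
  /-- a strand passing under a maximum slides from its right to its left side -/
  | capN (i : ℕ)
  /-- Reidemeister I at a minimum -/
  | r1cupP (i : ℕ)
  /-- Reidemeister I at a minimum -/
  | r1cupN (i : ℕ)
  /-- Reidemeister I at a maximum -/
  | r1capP (i : ℕ)
  /-- Reidemeister I at a maximum -/
  | r1capN (i : ℕ)
  /-- Reidemeister II -/
  | r2PN (i : ℕ)
  /-- Reidemeister II -/
  | r2NP (i : ℕ)
  /-- Reidemeister III -/
  | r3 (i : ℕ)

/-- The left hand side of a move. -/
def Mv.lhs : Mv → Wd
  | .far s t i d => [(s, i), (t, i + s.outs + d)]
  | .snakeL i => [(.cup, i + 1), (.cap, i)]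
  | .snakeR i => [(.cup, i), (.cap, i + 1)]
  | .cupP i => [(.cup, i), (.pos, i + 1)]
  | .cupN i => [(.cup, i), (.neg, i + 1)]
  | .capP i => [(.pos, i + 1), (.cap, i)]
  | .capN i => [(.neg, i + 1), (.cap, i)]
  | .r1cupP i => [(.cup, i), (.pos, i)]
  | .r1cupN i => [(.cup, i), (.neg, i)]
  | .r1capP i => [(.pos, i), (.cap, i)]
  | .r1capN i => [(.neg, i), (.cap, i)]
  | .r2PN i => [(.pos, i), (.neg, i)]
  | .r2NP i => [(.neg, i), (.pos, i)]
  | .r3 i => [(.pos, i), (.pos, i + 1), (.pos, i)]

/-- The right hand side of a move. -/
def Mv.rhs : Mv → Wd
  | .far s t i d => [(t, i + s.ins + d), (s, i)]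
  | .snakeL _ => []
  | .snakeR _ => []
  | .cupP i => [(.cup, i + 1), (.neg, i)]
  | .cupN i => [(.cup, i + 1), (.pos, i)]
  | .capP i => [(.neg, i), (.cap, i + 1)]
  | .capN i => [(.pos, i), (.cap, i + 1)]
  | .r1cupP i => [(.cup, i)]
  | .r1cupN i => [(.cup, i)]
  | .r1capP i => [(.cap, i)]
  | .r1capN i => [(.cap, i)]
  | .r2PN _ => []
  | .r2NP _ => []
  | .r3 i => [(.pos, i + 1), (.pos, i), (.pos, i + 1)]

/-- The side conditions: a move one side of which is empty must take place at an existing strand
(pair of strands). -/
def Mv.ok (k : ℕ) : Mv → Bool
  | .snakeL i => decide (i + 1 ≤ k)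
  | .snakeR i => decide (i + 1 ≤ k)
  | .r2PN i => decide (i + 2 ≤ k)
  | .r2NP i => decide (i + 2 ≤ k)
  | _ => true

/-- Isotopy of diagrams read from `k` strands: the equivalence relation generated by the local
moves, applied anywhere in a diagram. -/
inductive Iso : ℕ → Wd → Wd → Prop
  | refl (k : ℕ) (w : Wd) : Iso k w w
  | symm {k : ℕ} {a b : Wd} : Iso k a b → Iso k b a
  | trans {k : ℕ} {a b c : Wd} : Iso k a b → Iso k b c → Iso k a c
  | mv {k : ℕ} (x : Mv) (h : x.ok k = true) : Iso k x.lhs x.rhs
  | ctx {k m : ℕ} (u : Wd) {a b : Wd} (v : Wd) (h : run k u = some m) :
      Iso m a b → Iso k (u ++ (a ++ v)) (u ++ (b ++ v))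

/-- Shift of all positions of a word by `n`: the diagram with `n` vertical strands added on its
left hand side. -/
def sh (n : ℕ) (w : Wd) : Wd := w.map (fun s => (s.1, s.2 + n))

/-- The number of local maxima of a diagram. -/
def maxima (w : Wd) : ℕ := w.countP (fun s => s.1 = Kd.cap)

/-- The bridge number of the link with diagram `D`: the minimal number of local maxima of a
diagram isotopic to `D` (Schubert). -/
noncomputable def bridgeNumber (D : Wd) : ℕ := sInf {n | ∃ w, Iso 0 D w ∧ maxima w = n}

/-! ## Tie sequences and their diagrams -/

/-- The three regions. -/
inductive Region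
  | L | C | R
  deriving DecidableEq

/-- In-moves (the active strand passes over) and out-moves (it passes under). -/
inductive Dir
  | i | o
  deriving DecidableEq

/-- A tie sequence (without its final tuck `T`). -/
structure IsTie (s : List (Region × Dir)) : Prop where
  /-- the first move is `L_i` or `L_o` -/
  first : ∃ d, s.head? = some (Region.L, d)
  /-- consecutive moves lie in different regions -/
  regions : s.IsChain (fun x y => x.1 ≠ y.1)
  /-- in-moves and out-moves alternate -/
  dirs : s.IsChain (fun x y => x.2 ≠ y.2)
  /-- the sequence ends with `L_o R_i C_o` or with `R_o L_i C_o` (then comes `T`) -/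
  last : ∃ p, s = p ++ [(Region.L, Dir.o), (Region.R, Dir.i), (Region.C, Dir.o)] ∨
    s = p ++ [(Region.R, Dir.o), (Region.L, Dir.i), (Region.C, Dir.o)]

/-- The active strand, at position `j`, crosses the strand to its right, over it for an in-move,
under it for an out-move; it is at position `j+1` afterwards. -/
def goRight : Dir → ℕ → Sl
  | .i, j => (.pos, j)
  | .o, j => (.neg, j)

/-- The active strand, at position `j+1`, crosses the strand to its left, over it for an in-move,
under it for an out-move; it is at position `j` afterwards. -/
def goLeft : Dir → ℕ → Sl
  | .i, j => (.neg, j)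
  | .o, j => (.pos, j)

/-- The state after the first move.  The centre crossing `X` has four ends: the two halves
`UL`, `UR` of the neck loop, the passive end `D` and the active end `A`; at `X` the strand
`A - UR` crosses the strand `UL - D`, over it for `L_i` and under it for `L_o`.

In all states the four ends are bent upwards, so that a state is a diagram from `0` to `4`
strands; `UL`, `UR`, `D` appear in this order from left to right, the region `L` is to the left of
`UL` (equivalently, around the bottom, to the right of `D`), the region `C` is between `UL` and
`UR` and the region `R` is between `UR` and `D`. The position of the active end `A` is `0` when it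
is in `L`, `1` when it is in `C`, and `2` when it is in `R`. -/
def start (d : Dir) : Wd := [(.cup, 0), (.cup, 2), goRight d 1]

/-- The rightmost end is taken around the bottom of the diagram to the leftmost position
(inside the region `L`; no crossing). -/
def wrapL (w : Wd) : Wd := [(Kd.cup, 0)] ++ sh 1 w ++ [(Kd.cap, 4)]

/-- The leftmost end is taken around the bottom of the diagram to the rightmost position
(inside the region `L`; no crossing). -/
def wrapR (w : Wd) : Wd := [(Kd.cup, 0)] ++ sh 1 w ++ [(Kd.cap, 0)]

/-- The move of the active end from the region `a` to the region `b`: it crosses `UL` (between `L`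
and `C`), `UR` (between `C` and `R`) or `D` (between `R` and `L`). -/
def move (d : Dir) : Region → Region → Wd → Wd
  | .L, .C, w => w ++ [goRight d 0]
  | .C, .L, w => w ++ [goLeft d 0]
  | .C, .R, w => w ++ [goRight d 1]
  | .R, .C, w => w ++ [goLeft d 1]
  | .R, .L, w => wrapL (w ++ [goRight d 2])
  | .L, .R, w => wrapR w ++ [goLeft d 2]
  | .L, .L, w => w
  | .C, .C, w => w
  | .R, .R, w => w

/-- The state after further moves, the active end being in the region `a` at the beginning. -/
def go : Region → Wd → List (Region × Dir) → Wd
  | _, w, [] => w
  | a, w, x :: s => go x.1 (move x.2 a x.1 w) s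

/-- The state after the moves of a list the first of which is `L_i` or `L_o`. -/
def state : List (Region × Dir) → Wd
  | [] => []
  | x :: s => go Region.L (start x.2) s

/-- The end `R_i C_o T` of a tie sequence after `L_o`, and joining the two ends.
`w` is the state after the last `L_o`: the active end `A` is in the region `L` (position `0`).

The two cups `0`, `1` are the bottoms of the arc which joins the two ends at the very end
(outermost) and of the arc of the active strand in the region `L` which leads from `A`
to the next crossing (with `D`).  With this arc the strands are
`J  a  A  UL  UR  D  a'  J'` (positions `0,...,7`), where `a`, `a'` are the two ends of the arc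
around the bottom of the diagram and `J`, `J'` are the two ends of the joining arc.

* `cup 3`: lowest point of the final part `T` of the active strand: `t` (left) and `t'` (right);
* `neg 2`: `t` crosses over `A` (first crossing of `T` with the last loop);
* `pos 1`: `t` crosses under `a` (second crossing of `T` with the last loop);
* `cap 2`: `a` and `A` are joined;
* `neg 5`: `R_i`: the active strand `a'` crosses over `D`;
* `pos 4`: `C_o`: it crosses under `UR`;
* `neg 3`: `T`: it crosses over the neck loop (at `UL`) and
* `cap 2`: it goes on as `t'`;
* `cap 2`: the neck loop `UL - UR`;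
* `cap 0`, `cap 0`: `t`, the end of `T`, is joined to `D` by the joining arc. -/
def closeL (w : Wd) : Wd :=
  [(Kd.cup, 0), (Kd.cup, 1)] ++ sh 2 w ++
    [(Kd.cup, 3), goLeft .i 2, goLeft .o 1, (Kd.cap, 2), goLeft .i 5, goLeft .o 4, goLeft .i 3,
      (Kd.cap, 2), (Kd.cap, 2), (Kd.cap, 0), (Kd.cap, 0)]

/-- The end `L_i C_o T` of a tie sequence after `R_o`, and joining the two ends.
`w` is the state after the last `R_o`: the strands are `UL  UR  A  D`.

* `cup 3`: lowest point of the final part `T` of the active strand: `t'` (left) and `t` (right);
* `neg 2`: `A` crosses under `t'` (first crossing of `T` with the last loop, `T` is over);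
* `pos 3`: `A` crosses over `t` (second crossing of `T` with the last loop, `T` is under);
* `pos 4`: `L_i`: `A` crosses over `D`;
* `cup 0`, ..., `cap 6`: the active end is taken around the bottom to the leftmost position
  (inside the region `L`, no crossing);
* `neg 0`: `C_o`: it crosses under `UL`;
* `pos 1`: `T`: it crosses over the neck loop (at `UR`) and
* `cap 2`: it goes on as `t'`;
* `cap 2`: `t`, the end of `T`, is joined to `D`;
* `cap 0`: the neck loop `UL - UR`. -/
def closeR (w : Wd) : Wd :=
  [(Kd.cup, 0)] ++ sh 1 (w ++ [(Kd.cup, 3), goRight .o 2, goRight .i 3, goRight .i 4]) ++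
    [(Kd.cap, 6), goRight .o 0, goRight .i 1, (Kd.cap, 2), (Kd.cap, 2), (Kd.cap, 0)]

/-- The standard diagram of the tie knot of a tie sequence: `closeL` of the state after the last
`L_o` or `closeR` of the state after the last `R_o`. -/
def tieDiagram (s : List (Region × Dir)) : Wd :=
  if s.dropLast.dropLast.getLast? = some (Region.L, Dir.o) then closeL (state s.dropLast.dropLast)
  else closeR (state s.dropLast.dropLast)

end Pool.Agent.R805.Tie
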