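import Pool.Agent.R805.Tie.Basic

/-!
# Rational tangles: the flype lemma (problem MP_c2102d)

A rational tangle is a diagram isotopic to two cups followed by a braid on four strands.  We
show that twisting its first two ends is the same as twisting its last two ends.  The reason is
that the kernel of `B₄ → B₃` is generated by `a = σ₀σ₂⁻¹` and `b = σ₁aσ₁⁻¹`, and `a`, `b`
fix the trivial tangle.
-/

namespace Pool.Agent.R805.Tie

open Kd

section Group

variable {G : Type*} [Group G] {s0 s1 s2 : G}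

theorem helperA (h12 : s1 * s2 * s1 = s2 * s1 * s2) :
    s2⁻¹ * s1⁻¹ * s2 = s1 * s2⁻¹ * s1⁻¹ := by
  have : s1 * s2 * s1 * s2⁻¹ * s1⁻¹ = s2 := by rw [h12]; group
  calc s2⁻¹ * s1⁻¹ * s2 = s2⁻¹ * s1⁻¹ * (s1 * s2 * s1 * s2⁻¹ * s1⁻¹) := by rw [this]
    _ = s1 * s2⁻¹ * s1⁻¹ := by group

theorem helperB (h01 : s0 * s1 * s0 = s1 * s0 * s1) :
    s0⁻¹ * s1 * s0 = s1 * s0 * s1⁻¹ := by
  calc s0⁻¹ * s1 * s0 = s0⁻¹ * (s1 * s0 * s1) * s1⁻¹ := by group
    _ = s0⁻¹ * (s0 * s1 * s0) * s1⁻¹ := by rw [h01]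
    _ = s1 * s0 * s1⁻¹ := by group

theorem conj0b (h01 : s0 * s1 * s0 = s1 * s0 * s1) (h12 : s1 * s2 * s1 = s2 * s1 * s2)
    {a b : G} (ha : a = s0 * s2⁻¹) (hb : b = s1 * a * s1⁻¹) :
    s0 * b = b * a⁻¹ * s0 := by
  subst hb ha
  symm
  calc s1 * (s0 * s2⁻¹) * s1⁻¹ * (s0 * s2⁻¹)⁻¹ * s0
      = s1 * s0 * (s2⁻¹ * s1⁻¹ * s2) := by group
    _ = s1 * s0 * (s1 * s2⁻¹ * s1⁻¹) := by rw [helperA h12]
    _ = (s1 * s0 * s1) * s2⁻¹ * s1⁻¹ := by group
    _ = (s0 * s1 * s0) * s2⁻¹ * s1⁻¹ := by rw [h01]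
    _ = s0 * (s1 * (s0 * s2⁻¹) * s1⁻¹) := by group

theorem conj1b (h01 : s0 * s1 * s0 = s1 * s0 * s1) (h12 : s1 * s2 * s1 = s2 * s1 * s2)
    (h02 : s0 * s2 = s2 * s0) {a b : G} (ha : a = s0 * s2⁻¹) (hb : b = s1 * a * s1⁻¹) :
    s1 * b = b * a⁻¹ * b * s1 := by
  have hc : s2⁻¹ * s0 = s0 * s2⁻¹ := by
    rw [inv_mul_eq_iff_eq_mul, ← mul_assoc, ← h02, mul_assoc, mul_inv_cancel, mul_one]
  subst hb ha
  symm
  calc s1 * (s0 * s2⁻¹) * s1⁻¹ * (s0 * s2⁻¹)⁻¹ * (s1 * (s0 * s2⁻¹) * s1⁻¹) * s1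
      = s1 * s0 * (s2⁻¹ * s1⁻¹ * s2) * (s0⁻¹ * s1 * s0) * s2⁻¹ := by group
    _ = s1 * s0 * (s1 * s2⁻¹ * s1⁻¹) * (s1 * s0 * s1⁻¹) * s2⁻¹ := by
        rw [helperA h12, helperB h01]
    _ = s1 * s0 * s1 * (s2⁻¹ * s0) * s1⁻¹ * s2⁻¹ := by group
    _ = s1 * s0 * s1 * (s0 * s2⁻¹) * s1⁻¹ * s2⁻¹ := by rw [hc]
    _ = s1 * (s0 * s1 * s0) * s2⁻¹ * s1⁻¹ * s2⁻¹ := by group
    _ = s1 * (s1 * s0 * s1) * s2⁻¹ * s1⁻¹ * s2⁻¹ := by rw [h01]
    _ = s1 * s1 * s0 * (s1 * s2⁻¹ * s1⁻¹) * s2⁻¹ := by group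
    _ = s1 * s1 * s0 * (s2⁻¹ * s1⁻¹ * s2) * s2⁻¹ := by rw [helperA h12]
    _ = s1 * (s1 * (s0 * s2⁻¹) * s1⁻¹) := by group

variable {X : Type*} [MulAction G X]

/-- `x` is fixed by `a` and `b`. -/
def Fixed (a b : G) (x : X) : Prop := a • x = x ∧ b • x = x

theorem fixed_s0 (h01 : s0 * s1 * s0 = s1 * s0 * s1) (h12 : s1 * s2 * s1 = s2 * s1 * s2)
    (h02 : s0 * s2 = s2 * s0) {a b : G} (ha : a = s0 * s2⁻¹) (hb : b = s1 * a * s1⁻¹) {x : X}
    (hx : Fixed a b x) : Fixed a b (s0 • x) := by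
  have hc : a * s0 = s0 * a := by
    rw [ha]
    have : s2⁻¹ * s0 = s0 * s2⁻¹ := by
      rw [inv_mul_eq_iff_eq_mul, ← mul_assoc, ← h02, mul_assoc, mul_inv_cancel, mul_one]
    rw [mul_assoc, this]
  have h := conj0b h01 h12 ha hb
  refine ⟨?_, ?_⟩
  · rw [← mul_smul, hc, mul_smul, hx.1]
  · have e : b * s0 = s0 * b * a := by
      rw [h, mul_assoc, ← hc]; group
    rw [← mul_smul, e, mul_smul, hx.1, mul_smul, hx.2]

theorem fixed_s0inv (h01 : s0 * s1 * s0 = s1 * s0 * s1) (h12 : s1 * s2 * s1 = s2 * s1 * s2)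
    (h02 : s0 * s2 = s2 * s0) {a b : G} (ha : a = s0 * s2⁻¹) (hb : b = s1 * a * s1⁻¹) {x : X}
    (hx : Fixed a b x) : Fixed a b (s0⁻¹ • x) := by
  have hc : a * s0 = s0 * a := by
    rw [ha]
    have : s2⁻¹ * s0 = s0 * s2⁻¹ := by
      rw [inv_mul_eq_iff_eq_mul, ← mul_assoc, ← h02, mul_assoc, mul_inv_cancel, mul_one]
    rw [mul_assoc, this]
  have h := conj0b h01 h12 ha hb
  have ha' : a⁻¹ • x = x := by rw [inv_smul_eq_iff, hx.1]
  refine ⟨?_, ?_⟩
  · have e : a * s0⁻¹ = s0⁻¹ * a := by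
      rw [eq_inv_mul_iff_mul_eq, ← mul_assoc, ← hc, mul_assoc, mul_inv_cancel, mul_one]
    rw [← mul_smul, e, mul_smul, hx.1]
  · have e : b * s0⁻¹ = s0⁻¹ * b * a⁻¹ := by
      calc b * s0⁻¹ = s0⁻¹ * (s0 * b) * s0⁻¹ := by group
        _ = s0⁻¹ * (b * a⁻¹ * s0) * s0⁻¹ := by rw [h]
        _ = s0⁻¹ * b * a⁻¹ := by group
    rw [← mul_smul, e, mul_smul, ha', mul_smul, hx.2]

theorem fixed_s1 (h01 : s0 * s1 * s0 = s1 * s0 * s1) (h12 : s1 * s2 * s1 = s2 * s1 * s2)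
    (h02 : s0 * s2 = s2 * s0) {a b : G} (ha : a = s0 * s2⁻¹) (hb : b = s1 * a * s1⁻¹) {x : X}
    (hx : Fixed a b x) : Fixed a b (s1 • x) := by
  have h := conj1b h01 h12 h02 ha hb
  have hb' : b⁻¹ • x = x := by rw [inv_smul_eq_iff, hx.2]
  have e1 : s1 * a = b * s1 := by rw [hb]; group
  refine ⟨?_, ?_⟩
  · have e2 : s1 * b⁻¹ = b⁻¹ * a * b⁻¹ * s1 := by
      have : s1 = b * a⁻¹ * b * s1 * b⁻¹ := by rw [← h]; group
      calc s1 * b⁻¹ = b⁻¹ * a * b⁻¹ * (b * a⁻¹ * b * s1 * b⁻¹) := by group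
        _ = b⁻¹ * a * b⁻¹ * s1 := by rw [← this]
    have e : a * s1 = s1 * a * b⁻¹ * a := by
      symm
      calc s1 * a * b⁻¹ * a = b * (s1 * b⁻¹) * a := by rw [e1]; group
        _ = b * (b⁻¹ * a * b⁻¹ * s1) * a := by rw [e2]
        _ = a * b⁻¹ * (s1 * a) := by group
        _ = a * b⁻¹ * (b * s1) := by rw [e1]
        _ = a * s1 := by group
    rw [← mul_smul, e, mul_smul, hx.1, mul_smul, hb', mul_smul, hx.1]
  · rw [← mul_smul, ← e1, mul_smul, hx.1]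

theorem fixed_s1inv (h01 : s0 * s1 * s0 = s1 * s0 * s1) (h12 : s1 * s2 * s1 = s2 * s1 * s2)
    (h02 : s0 * s2 = s2 * s0) {a b : G} (ha : a = s0 * s2⁻¹) (hb : b = s1 * a * s1⁻¹) {x : X}
    (hx : Fixed a b x) : Fixed a b (s1⁻¹ • x) := by
  have h := conj1b h01 h12 h02 ha hb
  have ha' : a⁻¹ • x = x := by rw [inv_smul_eq_iff, hx.1]
  refine ⟨?_, ?_⟩
  · have e : a * s1⁻¹ = s1⁻¹ * b := by rw [hb]; group
    rw [← mul_smul, e, mul_smul, hx.2]
  · have e : b * s1⁻¹ = s1⁻¹ * b * a⁻¹ * b := by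
      calc b * s1⁻¹ = s1⁻¹ * (s1 * b) * s1⁻¹ := by group
        _ = s1⁻¹ * (b * a⁻¹ * b * s1) * s1⁻¹ := by rw [h]
        _ = s1⁻¹ * b * a⁻¹ * b := by group
    rw [← mul_smul, e, mul_smul, hx.2, mul_smul, ha', mul_smul, hx.2]

theorem smul_s2 (h01 : s0 * s1 * s0 = s1 * s0 * s1) (h12 : s1 * s2 * s1 = s2 * s1 * s2)
    (h02 : s0 * s2 = s2 * s0) {a b : G} (ha : a = s0 * s2⁻¹) (hb : b = s1 * a * s1⁻¹) {x : X}
    (hx : Fixed a b x) : s2 • x = s0 • x := by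
  have h0 := (fixed_s0 h01 h12 h02 ha hb hx).1
  have hc : s2 = a⁻¹ * s0 := by
    rw [ha]
    group
  rw [hc, mul_smul, inv_smul_eq_iff, h0]

theorem smul_s2inv {a b : G} (ha : a = s0 * s2⁻¹) {x : X}
    (hx : Fixed a b x) : s2⁻¹ • x = s0⁻¹ • x := by
  have hc : s2⁻¹ = s0⁻¹ * a := by rw [ha]; group
  rw [hc, mul_smul, hx.1]

end Group

/-! ### The action of the four strand braid group on diagrams with four ends -/

/-- Diagrams from `0` to `4` strands. -/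
def W4 : Type := {w : Wd // run 0 w = some 4}

instance W4.setoid : Setoid W4 where
  r x y := Iso 0 x.1 y.1
  iseqv := ⟨fun _ => Iso.refl _ _, fun h => h.symm, fun h1 h2 => h1.trans h2⟩

/-- Isotopy classes of diagrams from `0` to `4` strands. -/
def X4 : Type := Quotient W4.setoid

/-- Adding a crossing. -/
def addC (t : Kd) (ht : t.ins = 2) (ht' : t.outs = 2) (i : ℕ) (hi : i ≤ 2) (x : X4) : X4 :=
  Quotient.map (sa := W4.setoid) (sb := W4.setoid) (fun w => (⟨w.1 ++ [(t, i)], by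
    rw [run_append_of w.2]
    simp only [run, ht, ht']
    rw [if_pos (by omega)]⟩ : W4)) (fun _ _ h => Iso.right _ h) x

/-- The action of `σ_i`. -/
def sg (i : ℕ) (hi : i ≤ 2) : Equiv.Perm X4 where
  toFun := addC .pos rfl rfl i hi
  invFun := addC .neg rfl rfl i hi
  left_inv := by
    intro x
    induction x using Quotient.inductionOn with
    | h w =>
      refine Quotient.sound (s := W4.setoid) ?_
      have := Iso.left w.1 w.2 (Iso.mv (Mv.r2PN i) (by simp only [Mv.ok, decide_eq_true_eq]; omega))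
      simp only [Mv.lhs, Mv.rhs, List.append_nil] at this
      change Iso 0 ((w.1 ++ [(pos, i)]) ++ [(neg, i)]) w.1
      rw [List.append_assoc]
      exact this
  right_inv := by
    intro x
    induction x using Quotient.inductionOn with
    | h w =>
      refine Quotient.sound (s := W4.setoid) ?_
      have := Iso.left w.1 w.2 (Iso.mv (Mv.r2NP i) (by simp only [Mv.ok, decide_eq_true_eq]; omega))
      simp only [Mv.lhs, Mv.rhs, List.append_nil] at this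
      change Iso 0 ((w.1 ++ [(neg, i)]) ++ [(pos, i)]) w.1
      rw [List.append_assoc]
      exact this

/-- The class of a diagram. -/
def cl (w : Wd) (h : run 0 w = some 4) : X4 := Quotient.mk W4.setoid ⟨w, h⟩

theorem run_snoc {w : Wd} (h : run 0 w = some 4) {t : Kd} (ht : t = pos ∨ t = neg) {i : ℕ}
    (hi : i ≤ 2) : run 0 (w ++ [(t, i)]) = some 4 := by
  rw [run_append_of h]
  rcases ht with rfl | rfl
  · simp only [run, Kd.ins, Kd.outs]
    rw [if_pos (by omega)]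
  · simp only [run, Kd.ins, Kd.outs]
    rw [if_pos (by omega)]

theorem sg_cl {w : Wd} (h : run 0 w = some 4) {i : ℕ} (hi : i ≤ 2) :
    sg i hi • cl w h = cl (w ++ [(pos, i)]) (run_snoc h (Or.inl rfl) hi) := rfl

theorem sginv_cl {w : Wd} (h : run 0 w = some 4) {i : ℕ} (hi : i ≤ 2) :
    (sg i hi)⁻¹ • cl w h = cl (w ++ [(neg, i)]) (run_snoc h (Or.inr rfl) hi) := rfl

theorem cl_eq {w w' : Wd} {h : run 0 w = some 4} {h' : run 0 w' = some 4} :
    cl w h = cl w' h' ↔ Iso 0 w w' :=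
  ⟨fun e => Quotient.exact (s := W4.setoid) e, fun e => Quotient.sound (s := W4.setoid) e⟩

theorem sg02 : sg 0 (by omega) * sg 2 (by omega) = sg 2 (by omega) * sg 0 (by omega) := by
  ext x
  induction x using Quotient.inductionOn with
  | h w =>
    refine Quotient.sound (s := W4.setoid) ?_
    change Iso 0 ((w.1 ++ [(pos, 2)]) ++ [(pos, 0)]) ((w.1 ++ [(pos, 0)]) ++ [(pos, 2)])
    rw [List.append_assoc, List.append_assoc]
    exact (Iso.left w.1 w.2 (Iso.mv (Mv.far pos pos 0 0) rfl)).symm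

theorem sg01 : sg 0 (by omega) * sg 1 (by omega) * sg 0 (by omega)
    = sg 1 (by omega) * sg 0 (by omega) * sg 1 (by omega) := by
  ext x
  induction x using Quotient.inductionOn with
  | h w =>
    refine Quotient.sound (s := W4.setoid) ?_
    change Iso 0 (((w.1 ++ [(pos, 0)]) ++ [(pos, 1)]) ++ [(pos, 0)])
      (((w.1 ++ [(pos, 1)]) ++ [(pos, 0)]) ++ [(pos, 1)])
    rw [List.append_assoc, List.append_assoc, List.append_assoc, List.append_assoc]
    exact Iso.left w.1 w.2 (Iso.mv (Mv.r3 0) rfl)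

theorem sg12 : sg 1 (by omega) * sg 2 (by omega) * sg 1 (by omega)
    = sg 2 (by omega) * sg 1 (by omega) * sg 2 (by omega) := by
  ext x
  induction x using Quotient.inductionOn with
  | h w =>
    refine Quotient.sound (s := W4.setoid) ?_
    change Iso 0 (((w.1 ++ [(pos, 1)]) ++ [(pos, 2)]) ++ [(pos, 1)])
      (((w.1 ++ [(pos, 2)]) ++ [(pos, 1)]) ++ [(pos, 2)])
    rw [List.append_assoc, List.append_assoc, List.append_assoc, List.append_assoc]
    exact Iso.left w.1 w.2 (Iso.mv (Mv.r3 1) rfl)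

/-- The trivial tangle: two arcs side by side. -/
def c0 : Wd := [(cup, 0), (cup, 2)]

/-- Two nested arcs. -/
def c1 : Wd := [(cup, 0), (cup, 1)]

theorem c0_run : run 0 c0 = some 4 := by decide

/-- `a = σ₀ σ₂⁻¹`. -/
def pa : Equiv.Perm X4 := sg 0 (by omega) * (sg 2 (by omega))⁻¹

/-- `b = σ₁ a σ₁⁻¹`. -/
def pb : Equiv.Perm X4 := sg 1 (by omega) * pa * (sg 1 (by omega))⁻¹

theorem fixed_c0 : Fixed pa pb (cl c0 c0_run) := by
  refine ⟨?_, ?_⟩
  · change cl ((c0 ++ [(neg, 2)]) ++ [(pos, 0)]) _ = _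
    rw [cl_eq]
    exact script_iso [(1, true, Mv.r1cupN 2), (0, true, Mv.far cup cup 0 0),
      (1, true, Mv.r1cupP 0), (0, false, Mv.far cup cup 0 0)] (by decide)
  · change cl ((((c0 ++ [(neg, 1)]) ++ [(neg, 2)]) ++ [(pos, 0)]) ++ [(pos, 1)]) _ = _
    rw [cl_eq]
    exact script_iso [(1, false, Mv.cupP 1), (2, true, Mv.r2PN 2), (1, false, Mv.cupN 0),
      (2, true, Mv.r2NP 1), (0, false, Mv.far cup cup 0 0)] (by decide)

theorem fixed_step {w : Wd} (h : run 0 w = some 4) (hx : Fixed pa pb (cl w h)) {t : Kd} {i : ℕ}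
    (ht : t = pos ∨ t = neg) (hi : i ≤ 2) :
    Fixed pa pb (cl (w ++ [(t, i)]) (run_snoc h ht hi)) := by
  rcases ht with rfl | rfl
  · rw [← sg_cl h hi]
    interval_cases i
    · exact fixed_s0 sg01 sg12 sg02 rfl rfl hx
    · exact fixed_s1 sg01 sg12 sg02 rfl rfl hx
    · rw [smul_s2 sg01 sg12 sg02 (a := pa) (b := pb) rfl rfl hx]
      exact fixed_s0 sg01 sg12 sg02 rfl rfl hx
  · rw [← sginv_cl h hi]
    interval_cases i
    · exact fixed_s0inv sg01 sg12 sg02 rfl rfl hx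
    · exact fixed_s1inv sg01 sg12 sg02 rfl rfl hx
    · rw [smul_s2inv (s0 := sg 0 (by omega)) (a := pa) (b := pb) rfl hx]
      exact fixed_s0inv sg01 sg12 sg02 rfl rfl hx

/-- A braid word on four strands. -/
def IsBr (b : Wd) : Prop := ∀ s ∈ b, (s.1 = pos ∨ s.1 = neg) ∧ s.2 ≤ 2

theorem IsBr.snoc {b : Wd} (hb : IsBr b) {t : Kd} {i : ℕ} (ht : t = pos ∨ t = neg) (hi : i ≤ 2) :
    IsBr (b ++ [(t, i)]) := by
  intro s hs
  rw [List.mem_append] at hs
  rcases hs with hs | hs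
  · exact hb s hs
  · rw [List.mem_singleton] at hs
    subst hs
    exact ⟨ht, hi⟩

theorem run_c0_br {b : Wd} (hb : IsBr b) : run 0 (c0 ++ b) = some 4 := by
  induction b using List.reverseRecOn with
  | nil => decide
  | append_singleton b s ih =>
    have hb' : IsBr b := fun x hx => hb x (List.mem_append_left _ hx)
    have hs := hb s (by simp)
    rw [← List.append_assoc]
    exact run_snoc (ih hb') hs.1 hs.2

theorem fixed_br {b : Wd} (hb : IsBr b) : Fixed pa pb (cl (c0 ++ b) (run_c0_br hb)) := by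
  induction b using List.reverseRecOn with
  | nil => exact fixed_c0
  | append_singleton b s ih =>
    have hb' : IsBr b := fun x hx => hb x (List.mem_append_left _ hx)
    have hs := hb s (by simp)
    have h1 := fixed_step (run_c0_br hb') (ih hb') hs.1 hs.2
    have h2 : cl (c0 ++ b ++ [(s.1, s.2)]) (run_snoc (run_c0_br hb') hs.1 hs.2)
        = cl (c0 ++ (b ++ [s])) (run_c0_br hb) := by
      rw [cl_eq, List.append_assoc]
      exact Iso.refl _ _
    rw [← h2]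
    exact h1

/-- Rational tangles with four ends at the top. -/
def Rat (w : Wd) : Prop := ∃ b, IsBr b ∧ Iso 0 w (c0 ++ b)

theorem Rat.run {w : Wd} (h : Rat w) : run 0 w = some 4 := by
  obtain ⟨b, hb, e⟩ := h
  rw [e.run_eq, run_c0_br hb]

theorem Rat.iso {w w' : Wd} (h : Rat w) (e : Iso 0 w w') : Rat w' := by
  obtain ⟨b, hb, e'⟩ := h
  exact ⟨b, hb, e.symm.trans e'⟩

theorem Rat.snoc {w : Wd} (h : Rat w) {t : Kd} {i : ℕ} (ht : t = pos ∨ t = neg) (hi : i ≤ 2) :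
    Rat (w ++ [(t, i)]) := by
  obtain ⟨b, hb, e⟩ := h
  refine ⟨b ++ [(t, i)], hb.snoc ht hi, ?_⟩
  rw [← List.append_assoc]
  exact Iso.right _ e

/-- **The flype lemma**: twisting the first two ends of a rational tangle is the same as twisting
its last two ends. -/
theorem Rat.flype {w : Wd} (h : Rat w) {t : Kd} (ht : t = pos ∨ t = neg) :
    Iso 0 (w ++ [(t, 0)]) (w ++ [(t, 2)]) := by
  obtain ⟨b, hb, e⟩ := h
  refine (Iso.right [(t, 0)] e).trans (Iso.trans ?_ (Iso.right [(t, 2)] e).symm)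
  have hx := fixed_br hb
  rcases ht with rfl | rfl
  · rw [← cl_eq (h := run_snoc (run_c0_br hb) (Or.inl rfl) (by omega))
      (h' := run_snoc (run_c0_br hb) (Or.inl rfl) (by omega)), ← sg_cl _ (by omega),
      ← sg_cl _ (by omega)]
    exact (smul_s2 sg01 sg12 sg02 (a := pa) (b := pb) rfl rfl hx).symm
  · rw [← cl_eq (h := run_snoc (run_c0_br hb) (Or.inr rfl) (by omega))
      (h' := run_snoc (run_c0_br hb) (Or.inr rfl) (by omega)), ← sginv_cl _ (by omega),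
      ← sginv_cl _ (by omega)]
    exact (smul_s2inv (s0 := sg 0 (by omega)) (a := pa) (b := pb) rfl hx).symm

end Pool.Agent.R805.Tie
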