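import Pool.Agent.R805.Tie.Flype

/-!
# Tie knots are 2-bridge (problem MP_c2102d)

All states of a tie are rational tangles; after the final tuck `T` two crossings cancel, and the
rest is the closure of a rational tangle by a clasp.
-/

namespace Pool.Agent.R805.Tie

open Kd

theorem run_cup0 : run 0 [(cup, 0)] = some 2 := by decide

theorem wrapR_congr {w w' : Wd} (e : Iso 0 w w') : Iso 0 (wrapR w) (wrapR w') := by
  have h := Iso.ctx (k := 0) (m := 1 + 0 + 1) [(cup, 0)] [(cap, 0)] run_cup0 (e.pad 1 1)
  unfold wrapR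
  rw [List.append_assoc, List.append_assoc]
  exact h

theorem wrapL_congr {w w' : Wd} (e : Iso 0 w w') : Iso 0 (wrapL w) (wrapL w') := by
  have h := Iso.ctx (k := 0) (m := 1 + 0 + 1) [(cup, 0)] [(cap, 4)] run_cup0 (e.pad 1 1)
  unfold wrapL
  rw [List.append_assoc, List.append_assoc]
  exact h

theorem run_cup_sh {w : Wd} (h : run 0 w = some 4) : run 0 ([(cup, 0)] ++ sh 1 w) = some 6 := by
  rw [run_append_of run_cup0]
  exact run_pad 1 1 h

theorem wrapR_snoc {w : Wd} (h : run 0 w = some 4) (t : Kd) (i : ℕ) :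
    Iso 0 (wrapR (w ++ [(t, i + 1)])) (wrapR w ++ [(t, i)]) := by
  have e := Iso.left ([(cup, 0)] ++ sh 1 w) (run_cup_sh h) (Iso.mv (Mv.far cap t 0 i) rfl)
  simp only [Mv.lhs, Mv.rhs, Kd.ins, Kd.outs] at e
  have e1 : wrapR (w ++ [(t, i + 1)])
      = ([(cup, 0)] ++ sh 1 w) ++ [(t, 0 + 2 + i), (cap, 0)] := by
    simp only [wrapR, sh_append, sh_cons, sh_nil, List.append_assoc, List.cons_append,
      List.nil_append]
    have : i + 1 + 1 = 0 + 2 + i := by omega
    rw [this]
  have e2 : wrapR w ++ [(t, i)] = ([(cup, 0)] ++ sh 1 w) ++ [(cap, 0), (t, 0 + 0 + i)] := by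
    simp only [wrapR, List.append_assoc, List.cons_append, List.nil_append]
    have : i = 0 + 0 + i := by omega
    rw [← this]
  rw [e1, e2]
  exact e.symm

theorem wrapL_snoc {w : Wd} (h : run 0 w = some 4) {t : Kd} (ht : t = pos ∨ t = neg) {i : ℕ}
    (hi : i ≤ 1) : Iso 0 (wrapL (w ++ [(t, i)])) (wrapL w ++ [(t, i + 1)]) := by
  have hin : t.ins = 2 := by rcases ht with rfl | rfl <;> rfl
  have hout : t.outs = 2 := by rcases ht with rfl | rfl <;> rfl
  have e := Iso.left ([(cup, 0)] ++ sh 1 w) (run_cup_sh h)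
    (Iso.mv (Mv.far t cap (i + 1) (1 - i)) rfl)
  simp only [Mv.lhs, Mv.rhs, hin, hout] at e
  have e0 : i + 1 + 2 + (1 - i) = 4 := by omega
  rw [e0] at e
  have e1 : wrapL (w ++ [(t, i)])
      = ([(cup, 0)] ++ sh 1 w) ++ [(t, i + 1), (cap, 4)] := by
    simp only [wrapL, sh_append, sh_cons, sh_nil, List.append_assoc, List.cons_append,
      List.nil_append]
  have e2 : wrapL w ++ [(t, i + 1)] = ([(cup, 0)] ++ sh 1 w) ++ [(cap, 4), (t, i + 1)] := by
    simp only [wrapL, List.append_assoc, List.cons_append, List.nil_append]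
  rw [e1, e2]
  exact e

theorem rat_c0 : Rat c0 := ⟨[], by intro s hs; simp at hs, by simpa using Iso.refl 0 c0⟩

theorem c1_iso : Iso 0 c1 (c0 ++ [(neg, 1), (neg, 2)]) :=
  (script_iso [(1, false, Mv.cupP 1), (2, true, Mv.r2PN 2)] (by decide) :
    Iso 0 (c0 ++ [(neg, 1), (neg, 2)]) c1).symm

theorem rat_c1 : Rat c1 := by
  refine ⟨[(neg, 1), (neg, 2)], ?_, c1_iso⟩
  intro s hs
  simp only [List.mem_cons, List.not_mem_nil, or_false] at hs
  rcases hs with rfl | rfl <;> simp

theorem rat_wrapR_c0 : Rat (wrapR c0) :=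
  rat_c1.iso (script_iso [(2, false, Mv.far cap cup 0 1), (1, true, Mv.snakeL 0)]
    (by decide) : Iso 0 (wrapR c0) c1).symm

theorem rat_wrapL_c0 : Rat (wrapL c0) :=
  rat_c1.iso (script_iso [(2, true, Mv.snakeR 3)] (by decide) : Iso 0 (wrapL c0) c1).symm

/-- Rotating a rational tangle gives a rational tangle. -/
theorem Rat.wrapR {w : Wd} (h : Rat w) : Rat (wrapR w) := by
  obtain ⟨b, hb, e⟩ := h
  refine Rat.iso ?_ (wrapR_congr e).symm
  clear e
  induction b using List.reverseRecOn with
  | nil => exact rat_wrapR_c0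
  | append_singleton b s ih =>
    have hb' : IsBr b := fun x hx => hb x (List.mem_append_left _ hx)
    have hs := hb s (by simp)
    have hR : Rat (c0 ++ b) := ⟨b, hb', Iso.refl _ _⟩
    have ih' := ih hb'
    obtain ⟨t, i⟩ := s
    simp only at hs
    rw [← List.append_assoc]
    obtain ⟨ht, hi⟩ := hs
    interval_cases i
    · refine Rat.iso ?_ (wrapR_congr (hR.flype ht)).symm
      exact (ih'.snoc ht (by omega)).iso (wrapR_snoc hR.run t 1).symm
    · exact (ih'.snoc ht (by omega)).iso (wrapR_snoc hR.run t 0).symm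
    · exact (ih'.snoc ht (by omega)).iso (wrapR_snoc hR.run t 1).symm

theorem Rat.wrapL {w : Wd} (h : Rat w) : Rat (wrapL w) := by
  obtain ⟨b, hb, e⟩ := h
  refine Rat.iso ?_ (wrapL_congr e).symm
  clear e
  induction b using List.reverseRecOn with
  | nil => exact rat_wrapL_c0
  | append_singleton b s ih =>
    have hb' : IsBr b := fun x hx => hb x (List.mem_append_left _ hx)
    have hs := hb s (by simp)
    have hR : Rat (c0 ++ b) := ⟨b, hb', Iso.refl _ _⟩
    have ih' := ih hb'
    obtain ⟨t, i⟩ := s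
    simp only at hs
    rw [← List.append_assoc]
    obtain ⟨ht, hi⟩ := hs
    interval_cases i
    · exact (ih'.snoc ht (by omega)).iso (wrapL_snoc hR.run ht (by omega)).symm
    · exact (ih'.snoc ht (by omega)).iso (wrapL_snoc hR.run ht (by omega)).symm
    · refine Rat.iso ?_ (wrapL_congr (hR.flype ht))
      exact (ih'.snoc ht (by omega)).iso (wrapL_snoc hR.run ht (by omega)).symm

theorem goRight_kd (d : Dir) (j : ℕ) : ∃ t, (t = pos ∨ t = neg) ∧ goRight d j = (t, j) := by
  cases d
  · exact ⟨pos, Or.inl rfl, rfl⟩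
  · exact ⟨neg, Or.inr rfl, rfl⟩

theorem goLeft_kd (d : Dir) (j : ℕ) : ∃ t, (t = pos ∨ t = neg) ∧ goLeft d j = (t, j) := by
  cases d
  · exact ⟨neg, Or.inr rfl, rfl⟩
  · exact ⟨pos, Or.inl rfl, rfl⟩

theorem Rat.goR {w : Wd} (h : Rat w) (d : Dir) {j : ℕ} (hj : j ≤ 2) : Rat (w ++ [goRight d j]) := by
  obtain ⟨t, ht, e⟩ := goRight_kd d j
  rw [e]
  exact h.snoc ht hj

theorem Rat.goL {w : Wd} (h : Rat w) (d : Dir) {j : ℕ} (hj : j ≤ 2) : Rat (w ++ [goLeft d j]) := by
  obtain ⟨t, ht, e⟩ := goLeft_kd d j
  rw [e]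
  exact h.snoc ht hj

theorem Rat.move {w : Wd} (h : Rat w) (d : Dir) (a b : Region) : Rat (move d a b w) := by
  cases a <;> cases b
  · exact h
  · exact h.goR d (by omega)
  · exact h.wrapR.goL d (by omega)
  · exact h.goL d (by omega)
  · exact h
  · exact h.goR d (by omega)
  · exact (h.goR d (by omega)).wrapL
  · exact h.goL d (by omega)
  · exact h

theorem Rat.go {w : Wd} (h : Rat w) (a : Region) (s : List (Region × Dir)) : Rat (go a w s) := by
  induction s generalizing a w with
  | nil => exact h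
  | cons x s ih => exact ih (h.move x.2 a x.1) x.1

theorem rat_state {s : List (Region × Dir)} (h : s ≠ []) : Rat (state s) := by
  cases s with
  | nil => exact absurd rfl h
  | cons x s =>
    refine Rat.go ?_ Region.L s
    have : start x.2 = c0 ++ [goRight x.2 1] := rfl
    rw [this]
    exact rat_c0.goR x.2 (by omega)

/-! ### The two closures -/

/-- The slices of `closeL` after the state. -/
def tailL : Wd := [(cup, 3), (neg, 2), (pos, 1), (cap, 2), (neg, 5), (pos, 4), (neg, 3),
  (cap, 2), (cap, 2), (cap, 0), (cap, 0)]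

theorem tailL_iso : Iso 8 tailL ([(neg, 0), (pos, 6)] ++
    [(pos, 1), (cap, 0), (cap, 3), (pos, 2), (neg, 1), (cap, 0), (cap, 0)]) :=
  script_iso
    [ (8, false, Mv.far cap cap 0 0),
      (7, false, Mv.far cap cap 0 0),
      (6, false, Mv.far cap neg 0 1),
      (5, false, Mv.far cap pos 0 2),
      (4, false, Mv.far cap neg 0 3),
      (3, false, Mv.far cap cap 0 0),
      (2, true, Mv.capP 0),
      (1, false, Mv.far neg neg 0 0),
      (0, false, Mv.far neg cup 0 1),
      (2, true, Mv.capN 1),
      (1, false, Mv.far pos cup 1 0),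
      (2, true, Mv.snakeL 2),
      (7, true, Mv.far cap cap 0 0),
      (6, true, Mv.far cap cap 0 2),
      (5, true, Mv.far neg cap 1 1),
      (4, true, Mv.far pos cap 2 0),
      (3, false, Mv.capP 3),
      (2, true, Mv.far cap pos 0 4),
      (1, true, Mv.far pos pos 1 3)] (by decide)

theorem nest_iso : Iso 0 [(cup, 0), (cup, 1), (neg, 0), (pos, 2)] [(cup, 0), (cup, 1)] :=
  script_iso
    [ (1, false, Mv.cupP 0),
      (0, false, Mv.far cup cup 0 0),
      (1, false, Mv.cupN 1),
      (2, true, Mv.r2NP 2)] (by decide)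

theorem closeL_eq (w : Wd) : closeL w = [(cup, 0), (cup, 1)] ++ sh 2 w ++ tailL := rfl

/-- **The closure after `L_o R_i C_o T`**: a 4-plat. -/
theorem closeL_plat {w : Wd} (h : Rat w) :
    ∃ b, IsBr b ∧ Iso 0 (closeL w) (c0 ++ b ++ [(cap, 0), (cap, 0)]) := by
  have hw := h.run
  have r2 : run 0 [(cup, 0), (cup, 1)] = some 4 := by decide
  have r8 : run 4 (sh 2 w) = some 8 := run_pad 2 2 hw
  have r08 : run 0 ([(cup, 0), (cup, 1)] ++ sh 2 w) = some 8 := by
    rw [run_append_of r2]; exact r8
  -- the slices after the state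
  have e1 := Iso.left _ r08 tailL_iso
  -- `q2` and `p1` are moved below the state
  have e2 : Iso 4 (sh 2 w ++ [(neg, 0), (pos, 6)]) ([(neg, 0), (pos, 2)] ++ sh 2 w) := by
    have f1 := Iso.right [(pos, 6)] (commL neg rfl (l := 2) (k := 0) (r := 2) (i := 0)
      (by simp [Kd.ins]) hw)
    have f2 := commR pos (l := 2) (k := 0) (r := 2) (d := 0) hw
    have r4 : run 4 [(neg, 0)] = some 4 := by decide
    have f3 := Iso.left [(neg, 0)] r4 f2
    rw [List.append_assoc, List.append_assoc] at f1
    exact f1.trans f3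
  have e3 : Iso 0 ([(cup, 0), (cup, 1)] ++ sh 2 w ++ [(neg, 0), (pos, 6)])
      ([(cup, 0), (cup, 1)] ++ sh 2 w) := by
    rw [List.append_assoc]
    refine (Iso.left _ r2 e2).trans ?_
    exact Iso.right (sh 2 w) nest_iso
  set T2 : Wd := [(pos, 1), (cap, 0), (cap, 3), (pos, 2), (neg, 1), (cap, 0), (cap, 0)] with hT2
  have e4 : Iso 0 (closeL w) ([(cup, 0), (cup, 1)] ++ sh 2 w ++ T2) := by
    rw [closeL_eq]
    refine e1.trans ?_
    rw [← List.append_assoc]
    exact Iso.right T2 e3
  -- the rational tangle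
  have hU : Rat (wrapR (wrapL w ++ [(pos, 0)])) := (h.wrapL.snoc (Or.inl rfl) (by omega)).wrapR
  have e5 : wrapR (wrapL w ++ [(pos, 0)])
      = [(cup, 0), (cup, 1)] ++ sh 2 w ++ [(cap, 5), (pos, 1), (cap, 0)] := by
    simp only [wrapR, wrapL, sh_append, sh_cons, sh_nil, sh_sh, List.append_assoc,
      List.cons_append, List.nil_append]
  have e6 : Iso 8 ([(cap, 5), (pos, 1), (cap, 0)] ++ [(pos, 2), (neg, 1), (cap, 0), (cap, 0)])
      T2 :=
    script_iso [(0, false, Mv.far pos cap 1 2), (1, false, Mv.far cap cap 0 3)] (by decide)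
  have e7 := Iso.left _ r08 e6
  rw [← List.append_assoc, ← e5] at e7
  obtain ⟨b, hb, e8⟩ := hU
  refine ⟨b ++ [(pos, 2), (neg, 1)], (hb.snoc (i := 2) (Or.inl rfl) (by omega)).snoc
    (t := neg) (i := 1) (Or.inr rfl) (by omega) |> fun h => by simpa using h, ?_⟩
  refine e4.trans (e7.symm.trans ?_)
  have e9 := Iso.right [(pos, 2), (neg, 1), (cap, 0), (cap, 0)] e8
  simpa using e9

/-- The slices of `closeR` after the state. -/
def tailR : Wd := [(cup, 4), (neg, 3), (pos, 4), (pos, 5), (cap, 6), (neg, 0), (pos, 1),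
  (cap, 2), (cap, 2), (cap, 0)]

theorem tailR_iso : Iso 6 tailR [(neg, 3), (cap, 4), (neg, 0), (pos, 1), (cap, 0), (cap, 0)] :=
  script_iso
    [ (7, true, Mv.far cap cap 2 0),
      (6, true, Mv.far pos cap 1 1),
      (5, true, Mv.far neg cap 0 2),
      (4, false, Mv.far cap cap 4 0),
      (3, true, Mv.capP 4),
      (2, true, Mv.r2PN 4),
      (1, true, Mv.far neg cap 3 0),
      (0, true, Mv.snakeR 4),
      (4, false, Mv.far cap cap 0 0)] (by decide)

theorem closeR_eq (w : Wd) : closeR w = [(cup, 0)] ++ sh 1 w ++ tailR := by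
  simp only [closeR, tailR, sh_append, sh_cons, sh_nil, goRight, List.append_assoc,
    List.cons_append, List.nil_append]

/-- **The closure after `R_o L_i C_o T`**: a 4-plat. -/
theorem closeR_plat {w : Wd} (h : Rat w) :
    ∃ b, IsBr b ∧ Iso 0 (closeR w) (c0 ++ b ++ [(cap, 0), (cap, 0)]) := by
  have hw := h.run
  have e1 := Iso.left _ (run_cup_sh hw) tailR_iso
  rw [← closeR_eq] at e1
  have hU : Rat (wrapL (w ++ [(neg, 2)])) := (h.snoc (Or.inr rfl) (by omega)).wrapL
  have e5 : [(cup, 0)] ++ sh 1 w ++ [(neg, 3), (cap, 4), (neg, 0), (pos, 1), (cap, 0), (cap, 0)]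
      = wrapL (w ++ [(neg, 2)]) ++ [(neg, 0), (pos, 1), (cap, 0), (cap, 0)] := by
    simp only [wrapL, sh_append, sh_cons, sh_nil, List.append_assoc, List.cons_append,
      List.nil_append]
  rw [e5] at e1
  obtain ⟨b, hb, e8⟩ := hU
  refine ⟨b ++ [(neg, 0), (pos, 1)], (hb.snoc (t := neg) (i := 0) (Or.inr rfl) (by omega)).snoc
    (t := pos) (i := 1) (Or.inl rfl) (by omega) |> fun h => by simpa using h, ?_⟩
  refine e1.trans ?_
  have e9 := Iso.right [(neg, 0), (pos, 1), (cap, 0), (cap, 0)] e8
  simpa using e9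

/-- **Every tie knot is a 4-plat.** -/
theorem tie_plat {s : List (Region × Dir)} (hs : IsTie s) :
    ∃ b, IsBr b ∧ Iso 0 (tieDiagram s) (c0 ++ b ++ [(cap, 0), (cap, 0)]) := by
  have h2 : s.dropLast.dropLast ≠ [] := by
    obtain ⟨p, hp | hp⟩ := hs.last
    · rw [hp]
      have : (p ++ [(Region.L, Dir.o), (Region.R, Dir.i), (Region.C, Dir.o)]).dropLast.dropLast
          = p ++ [(Region.L, Dir.o)] := by
        rw [List.dropLast_append_of_ne_nil (by simp), List.dropLast_append_of_ne_nil (by simp)]
        rfl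
      rw [this]
      simp
    · rw [hp]
      have : (p ++ [(Region.R, Dir.o), (Region.L, Dir.i), (Region.C, Dir.o)]).dropLast.dropLast
          = p ++ [(Region.R, Dir.o)] := by
        rw [List.dropLast_append_of_ne_nil (by simp), List.dropLast_append_of_ne_nil (by simp)]
        rfl
      rw [this]
      simp
  unfold tieDiagram
  split_ifs
  · exact closeL_plat (rat_state h2)
  · exact closeR_plat (rat_state h2)

theorem maxima_plat {b : Wd} (hb : IsBr b) : maxima (c0 ++ b ++ [(cap, 0), (cap, 0)]) = 2 := by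
  have h0 : b.countP (fun s => s.1 = Kd.cap) = 0 := by
    rw [List.countP_eq_zero]
    intro s hs
    rcases (hb s hs).1 with h | h <;> simp [h]
  simp only [maxima, List.countP_append, h0]
  decide

/-- **Every tie knot has bridge number at most two.** -/
theorem tie_bridge {s : List (Region × Dir)} (hs : IsTie s) : bridgeNumber (tieDiagram s) ≤ 2 := by
  obtain ⟨b, hb, e⟩ := tie_plat hs
  exact Nat.sInf_le ⟨_, e, maxima_plat hb⟩

end Pool.Agent.R805.Tie

namespace Pool.Agent.R805.Tie

open Kd

/-! ### Sanity checks -/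

/-- The number of crossings of a diagram. -/
def crossings (w : Wd) : ℕ := w.countP (fun s => s.1 = Kd.pos ∨ s.1 = Kd.neg)

theorem crossings_append (u v : Wd) : crossings (u ++ v) = crossings u + crossings v := by
  simp [crossings]

theorem crossings_sh (n : ℕ) (w : Wd) : crossings (sh n w) = crossings w := by
  simp only [crossings, sh, List.countP_map]
  rfl

theorem crossings_wrapL (w : Wd) : crossings (wrapL w) = crossings w := by
  simp only [wrapL, crossings_append, crossings_sh]
  have h1 : crossings [(cup, 0)] = 0 := by decide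
  have h2 : crossings [(cap, 4)] = 0 := by decide
  omega

theorem crossings_wrapR (w : Wd) : crossings (wrapR w) = crossings w := by
  simp only [wrapR, crossings_append, crossings_sh]
  have h1 : crossings [(cup, 0)] = 0 := by decide
  have h2 : crossings [(cap, 0)] = 0 := by decide
  omega

theorem crossings_goRight (d : Dir) (j : ℕ) : crossings [goRight d j] = 1 := by
  cases d <;> simp [crossings, goRight]

theorem crossings_goLeft (d : Dir) (j : ℕ) : crossings [goLeft d j] = 1 := by
  cases d <;> simp [crossings, goLeft]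

theorem crossings_move (d : Dir) {a b : Region} (h : a ≠ b) (w : Wd) :
    crossings (move d a b w) = crossings w + 1 := by
  cases a <;> cases b <;> first
    | exact absurd rfl h
    | simp only [move, crossings_append, crossings_wrapL, crossings_wrapR, crossings_goRight,
        crossings_goLeft]

theorem crossings_go (a : Region) (w : Wd) (s : List (Region × Dir)) (d0 : Dir)
    (h : ((a, d0) :: s).IsChain (fun x y => x.1 ≠ y.1)) :
    crossings (go a w s) = crossings w + s.length := by
  induction s generalizing a w d0 with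
  | nil => rfl
  | cons x s ih =>
    rw [List.isChain_cons_cons] at h
    simp only [go]
    rw [ih x.1 _ x.2 h.2, crossings_move x.2 h.1]
    simp only [List.length_cons]
    omega

theorem crossings_state {s : List (Region × Dir)} (h0 : ∃ d, s.head? = some (Region.L, d))
    (h : s.IsChain (fun x y => x.1 ≠ y.1)) : crossings (state s) = s.length := by
  obtain ⟨d, hd⟩ := h0
  cases s with
  | nil => simp at hd
  | cons x s =>
    simp only [List.head?_cons, Option.some.injEq] at hd
    subst hd
    have := crossings_go Region.L (start d) s d h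
    simp only [state]
    rw [this]
    have h2 : crossings (start d) = 1 := by cases d <;> decide
    rw [h2, List.length_cons]
    omega

/-- The standard diagram of a tie sequence with `n` moves (and the final `T`) has `n + 3`
crossings. -/
theorem crossings_tie {s : List (Region × Dir)} (hs : IsTie s) :
    crossings (tieDiagram s) = s.length + 3 := by
  have key : ∀ (p : List (Region × Dir)) (x y z : Region × Dir), s = p ++ [x, y, z] →
      s.dropLast.dropLast = p ++ [x] ∧ crossings (state (p ++ [x])) = p.length + 1 := by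
    intro p x y z hp
    have e : s.dropLast.dropLast = p ++ [x] := by
      rw [hp, List.dropLast_append_of_ne_nil (by simp), List.dropLast_append_of_ne_nil (by simp)]
      rfl
    refine ⟨e, ?_⟩
    have h1 : (p ++ [x]).IsChain (fun x y => x.1 ≠ y.1) := by
      have hpre : s = (p ++ [x]) ++ [y, z] := by rw [hp]; simp
      have h := hs.regions
      rw [hpre, List.isChain_append] at h
      exact h.1
    have h2 : ∃ d, (p ++ [x]).head? = some (Region.L, d) := by
      obtain ⟨d, hd⟩ := hs.first
      refine ⟨d, ?_⟩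
      rw [hp] at hd
      cases p with
      | nil => simpa using hd
      | cons q p => simpa using hd
    rw [crossings_state h2 h1]
    simp
  unfold tieDiagram
  obtain ⟨p, hp | hp⟩ := hs.last
  · obtain ⟨e1, e2⟩ := key p _ _ _ hp
    rw [e1, if_pos (by simp)]
    rw [closeL_eq, crossings_append, crossings_append, crossings_sh, e2]
    have h1 : crossings [(cup, 0), (cup, 1)] = 0 := by decide
    have h2 : crossings tailL = 5 := by decide
    rw [h1, h2, hp]
    simp
  · obtain ⟨e1, e2⟩ := key p _ _ _ hp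
    rw [e1, if_neg (by simp)]
    rw [closeR_eq, crossings_append, crossings_append, crossings_sh, e2]
    have h1 : crossings [(cup, 0)] = 0 := by decide
    have h2 : crossings tailR = 5 := by decide
    rw [h1, h2, hp]
    simp

/-- The standard diagram of a tie sequence is a (closed) diagram. -/
theorem run_tie {s : List (Region × Dir)} (hs : IsTie s) : run 0 (tieDiagram s) = some 0 := by
  obtain ⟨b, hb, e⟩ := tie_plat hs
  rw [e.run_eq, run_append_of (run_c0_br hb)]
  decide

end Pool.Agent.R805.Tie
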